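import Pool.Agent.Run7.h96.IX.Stm2

set_option autoImplicit false

open Set

namespace Run7.h181.IX

open Run7.h96.IX

theorem t_DUAL0 : S_DUAL → S_DUAL0 := by
  intro hDUAL D L γ v F hD0 hL hL2 hγ hv0 hv2 hvF hF
  have key := hDUAL {p : ℝ × ℝ × ℝ | (p.1, p.2.1) ∈ D ∧ (p.2.2 = 0 ∨ p.2.2 = 1)}
    (fun s r => L s + max 0 r) (1 / 2) γ v F ⟨hD0, Or.inl rfl⟩ ⟨hD0, Or.inr rfl⟩
    (by
      intro s r ε hs hε
      obtain ⟨p, hp, hpL⟩ := hL s ε hs hε
      rcases le_or_gt r 0 with h | h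
      · refine ⟨(p.1, p.2, 0), ⟨hp, Or.inl rfl⟩, ?_⟩
        show L s + max 0 r - ε ≤ p.1 - s * p.2 + r * 0
        rw [max_eq_left h]
        linarith
      · refine ⟨(p.1, p.2, 1), ⟨hp, Or.inr rfl⟩, ?_⟩
        show L s + max 0 r - ε ≤ p.1 - s * p.2 + r * 1
        rw [max_eq_right h.le]
        linarith)
    (by
      intro s r hs
      have h0 := hL2 s hs
      have h1 := le_max_left 0 r
      have h2 := le_max_right 0 r
      exact ⟨by linarith, by linarith⟩)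
    (by norm_num) (by norm_num) hγ hv0 hv2 hvF
    (by
      intro s r hs hs1
      have h0 := hF s hs hs1
      have h1 := le_max_left 0 r
      have h2 := le_max_right 0 r
      show (1 - s) * F ≤ L s + max 0 r - 1 / 2 * r + γ
      linarith)
  obtain ⟨η, hη, hk⟩ := key
  obtain ⟨p, hp, h1, h2, -⟩ := hk 1 one_pos
  refine ⟨η, hη, (p.1, p.2.1), ?_, h1, h2⟩
  have hsub : convexHull ℝ {p : ℝ × ℝ × ℝ | (p.1, p.2.1) ∈ D ∧ (p.2.2 = 0 ∨ p.2.2 = 1)} ⊆
      ((LinearMap.fst ℝ ℝ (ℝ × ℝ)).prod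
        ((LinearMap.fst ℝ ℝ ℝ).comp (LinearMap.snd ℝ ℝ (ℝ × ℝ)))) ⁻¹' (convexHull ℝ D) := by
    refine convexHull_min ?_ ((convex_convexHull ℝ D).linear_preimage _)
    intro q hq
    exact subset_convexHull ℝ D hq.1
  exact hsub hp

end Run7.h181.IX
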