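import Pool.Agent.Run7.h96.IX.Stm

set_option autoImplicit false

open Finset Filter Topology

namespace Run7.h181.IX

open Run7.h96.IX

theorem prodAdd {n : ℕ} (f g : Fin n → ℝ) :
    ∏ i, (f i + g i) = ∑ t : Finset (Fin n), (∏ i ∈ t, f i) * ∏ i ∈ univ \ t, g i := by
  rw [Finset.prod_add, powerset_univ]

theorem cardCompl {n : ℕ} (A : Finset (Fin n)) : (univ \ A).card = n - A.card := by
  rw [card_univ_sdiff, Fintype.card_fin]

theorem inner {n : ℕ} (A : Finset (Fin n)) (w w' x : ℝ) :
    ∑ B : Finset (Fin n), x ^ ((A ∩ B).card) * (w ^ B.card * w' ^ (n - B.card)) =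
      (x * w + w') ^ A.card * (w + w') ^ (n - A.card) := by
  have h1 : ∏ i : Fin n, ((if i ∈ A then x * w else w) + w') =
      (x * w + w') ^ A.card * (w + w') ^ (n - A.card) := by
    rw [← prod_sdiff (subset_univ A), mul_comm]
    congr 1
    · rw [← prod_const]
      exact prod_congr rfl fun i hi => by rw [if_pos hi]
    · rw [← cardCompl A, ← prod_const]
      exact prod_congr rfl fun i hi => by rw [if_neg (mem_sdiff.1 hi).2]
  rw [← h1, prodAdd]
  refine sum_congr rfl fun B _ => ?_
  rw [prod_const, cardCompl]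
  have h2 : ∏ i ∈ B, (if i ∈ A then x * w else w) = x ^ ((A ∩ B).card) * w ^ B.card := by
    have h3 : ∀ i ∈ B, (if i ∈ A then x * w else w) = (if i ∈ A then x else 1) * w := by
      intro i _
      split_ifs <;> ring
    rw [prod_congr rfl h3, prod_mul_distrib, prod_const]
    congr 1
    rw [prod_ite, prod_const_one, mul_one, prod_const]
    congr 2
    ext i
    simp [and_comm]
  rw [h2]
  ring

theorem t_ID : S_ID := by
  intro n u u' w w' x
  have h1 : ∀ A : Finset (Fin n), ∑ B : Finset (Fin n),
      x ^ ((A ∩ B).card) * (u ^ A.card * u' ^ (n - A.card)) * (w ^ B.card * w' ^ (n - B.card)) =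
      (∏ i ∈ A, u * (x * w + w')) * ∏ i ∈ univ \ A, u' * (w + w') := by
    intro A
    rw [prod_const, prod_const, cardCompl, mul_pow, mul_pow]
    have h2 : ∑ B : Finset (Fin n),
        x ^ ((A ∩ B).card) * (u ^ A.card * u' ^ (n - A.card)) * (w ^ B.card * w' ^ (n - B.card)) =
        (u ^ A.card * u' ^ (n - A.card)) * ∑ B : Finset (Fin n),
          x ^ ((A ∩ B).card) * (w ^ B.card * w' ^ (n - B.card)) := by
      rw [mul_sum]
      exact sum_congr rfl fun B _ => by ring
    rw [h2, inner]
    ring
  rw [sum_congr rfl fun A _ => h1 A, ← prodAdd, prod_const, card_univ, Fintype.card_fin]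
  congr 1
  ring

end Run7.h181.IX
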